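import Mathlib
import Pool.Agent.N964.MX.Defs

set_option autoImplicit false

/-!
# `1 / ζ` at small heights under the Riemann hypothesis (part G of the project MX)
-/

namespace Pool.Agent.N279.MXG

open Complex Filter Topology Set
open Pool.Agent.H295R2 (fz Zs Zs_differentiable Zs_eq Zs_ne_zero_of_one_le)
open Pool.Agent.N964.MX

/-- near every point the entire function `(s - 1) ζ(s)` is bounded below by a power of the
distance -/
lemma low_at (w₀ : ℂ) : ∃ (n : ℕ) (c : ℝ), 0 < c ∧ ∀ᶠ z in 𝓝 w₀, c * ‖z - w₀‖ ^ n ≤ ‖Zs z‖ := by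
  have ha : AnalyticAt ℂ Zs w₀ := Zs_differentiable.analyticAt w₀
  have hne : ¬ ∀ᶠ z in 𝓝 w₀, Zs z = 0 := by
    intro h
    have h1 : AnalyticOnNhd ℂ Zs Set.univ := fun z _ => Zs_differentiable.analyticAt z
    have h2 := h1.eqOn_zero_of_preconnected_of_eventuallyEq_zero isPreconnected_univ
      (Set.mem_univ w₀) h
    exact Zs_ne_zero_of_one_le (s := 1) (by simp) (h2 (Set.mem_univ 1))
  obtain ⟨n, g, hg, hg0, heq⟩ := (ha.exists_eventuallyEq_pow_smul_nonzero_iff).2 hne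
  refine ⟨n, ‖g w₀‖ / 2, by positivity, ?_⟩
  have hc : ∀ᶠ z in 𝓝 w₀, ‖g w₀‖ / 2 < ‖g z‖ :=
    hg.continuousAt.norm.eventually (lt_mem_nhds (half_lt_self (norm_pos_iff.2 hg0)))
  filter_upwards [heq, hc] with z hz hz2
  rw [hz, smul_eq_mul, norm_mul, norm_pow, mul_comm]
  gcongr

/-- the local statement in terms of the distance to the critical line -/
def P (S : Set ℂ) : Prop := ∃ (n : ℕ) (c : ℝ), 0 < c ∧ ∀ z ∈ S, 1 / 2 < z.re → z.re ≤ 1 →
  c * (z.re - 1 / 2) ^ n ≤ ‖Zs z‖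

lemma P_mono {S T : Set ℂ} (h : S ⊆ T) (hT : P T) : P S := by
  obtain ⟨n, c, hc, H⟩ := hT
  exact ⟨n, c, hc, fun z hz => H z (h hz)⟩

lemma P_union {S T : Set ℂ} (hS : P S) (hT : P T) : P (S ∪ T) := by
  obtain ⟨n, c, hc, H⟩ := hS
  obtain ⟨m, c', hc', H'⟩ := hT
  refine ⟨max n m, min c c', lt_min hc hc', ?_⟩
  rintro z (hz | hz) h1 h2
  · have h3 : (z.re - 1 / 2) ^ max n m ≤ (z.re - 1 / 2) ^ n :=
      pow_le_pow_of_le_one (by linarith) (by linarith) (le_max_left _ _)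
    have h4 := H z hz h1 h2
    have h5 : 0 ≤ (z.re - 1 / 2) ^ max n m := pow_nonneg (by linarith) _
    calc _ ≤ c * (z.re - 1 / 2) ^ n := by
          apply mul_le_mul (min_le_left _ _) h3 h5 hc.le
      _ ≤ _ := h4
  · have h3 : (z.re - 1 / 2) ^ max n m ≤ (z.re - 1 / 2) ^ m :=
      pow_le_pow_of_le_one (by linarith) (by linarith) (le_max_right _ _)
    have h4 := H' z hz h1 h2
    have h5 : 0 ≤ (z.re - 1 / 2) ^ max n m := pow_nonneg (by linarith) _
    calc _ ≤ c' * (z.re - 1 / 2) ^ m := by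
          apply mul_le_mul (min_le_right _ _) h3 h5 hc'.le
      _ ≤ _ := h4

lemma P_local (RH : RiemannHypothesis) (w₀ : ℂ) (hw : 1 / 2 ≤ w₀.re) : ∃ U ∈ 𝓝 w₀, P U := by
  obtain ⟨n, c, hc, H⟩ := low_at w₀
  rcases hw.eq_or_lt with h | h
  · refine ⟨_, H, n, c, hc, ?_⟩
    intro z hz h1 h2
    refine le_trans ?_ (show c * ‖z - w₀‖ ^ n ≤ ‖Zs z‖ from hz)
    have h3 : z.re - 1 / 2 ≤ ‖z - w₀‖ := by
      have := Complex.abs_re_le_norm (z - w₀)
      rw [Complex.sub_re, ← h] at this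
      exact (le_abs_self _).trans this
    have h4 : 0 ≤ z.re - 1 / 2 := by linarith
    gcongr
  · have hne : Zs w₀ ≠ 0 := by
      rcases lt_or_ge w₀.re 1 with h1 | h1
      · have hw1 : w₀ ≠ 1 := by rintro rfl; simp at h1
        rw [← Zs_eq hw1]
        refine mul_ne_zero (sub_ne_zero.2 hw1) ?_
        intro hz
        have h2 := RH w₀ hz (by
          rintro ⟨k, hk⟩
          have : w₀.re = -2 * ((k : ℝ) + 1) := by
            rw [hk]; simp
          have hk0 : (0 : ℝ) ≤ k := Nat.cast_nonneg k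
          linarith) hw1
        linarith
      · exact Zs_ne_zero_of_one_le h1
    have hc2 : ∀ᶠ z in 𝓝 w₀, ‖Zs w₀‖ / 2 < ‖Zs z‖ :=
      (Zs_differentiable w₀).continuousAt.norm.eventually
        (lt_mem_nhds (half_lt_self (norm_pos_iff.2 hne)))
    refine ⟨_, hc2, 0, ‖Zs w₀‖ / 2, by positivity, ?_⟩
    intro z hz _ _
    rw [pow_zero, mul_one]
    exact le_of_lt hz

theorem small : S_small := by
  intro RH
  have hK : IsCompact (Set.Icc (1 / 2 : ℝ) (3 / 4) ×ℂ Set.Icc (-1 : ℝ) 1) :=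
    isCompact_Icc.reProdIm isCompact_Icc
  have hP : P (Set.Icc (1 / 2 : ℝ) (3 / 4) ×ℂ Set.Icc (-1 : ℝ) 1) := by
    refine hK.induction_on (p := P) ⟨0, 1, one_pos, by simp⟩ (fun S T h => P_mono h)
      (fun S T => P_union) ?_
    intro w hw
    obtain ⟨U, hU, hPU⟩ := P_local RH w hw.1.1
    exact ⟨U, mem_nhdsWithin_of_mem_nhds hU, hPU⟩
  obtain ⟨n, c, hc, H⟩ := hP
  refine ⟨(n : ℝ) + |Real.log (3 / c)| + 1, by positivity, ?_⟩
  intro t δ ht hδ hδ1
  set s : ℂ := 1 / 2 + δ + t * I with hs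
  have hre : s.re = 1 / 2 + δ := by simp [hs]
  have him : s.im = t := by simp [hs]
  have h1 := H s ⟨⟨by rw [hre]; linarith, by rw [hre]; linarith⟩,
    ⟨by rw [him]; exact (abs_le.1 ht).1, by rw [him]; exact (abs_le.1 ht).2⟩⟩
    (by rw [hre]; linarith) (by rw [hre]; linarith)
  rw [hre, show (1 / 2 + δ - 1 / 2 : ℝ) = δ by ring] at h1
  have hcd : 0 < c * δ ^ n := by positivity
  have h2 : ‖s - 1‖ ≤ 3 := by
    have e : s - 1 = ((δ - 1 / 2 : ℝ) : ℂ) + (t : ℂ) * I := by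
      rw [hs]; push_cast; ring
    rw [e]
    refine (norm_add_le _ _).trans ?_
    rw [Complex.norm_real, norm_mul, Complex.norm_real, Complex.norm_I, mul_one,
      Real.norm_eq_abs, Real.norm_eq_abs]
    have : |δ - 1 / 2| ≤ 1 := by rw [abs_le]; constructor <;> linarith
    linarith
  have h3 : ‖fz s‖ ≤ 3 / (c * δ ^ n) := by
    rw [fz, norm_div]
    exact div_le_div₀ (by norm_num) h2 hcd h1
  refine h3.trans ?_
  have hlog : 0 ≤ Real.log (1 / δ) := Real.log_nonneg (by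
    rw [le_div_iff₀ hδ]; linarith)
  have h4 : 3 / (c * δ ^ n) = Real.exp (Real.log (3 / c) + n * Real.log (1 / δ)) := by
    rw [Real.exp_add, Real.exp_log (by positivity), mul_comm (n : ℝ), Real.exp_mul,
      Real.exp_log (by positivity), Real.rpow_natCast, one_div, inv_pow, div_mul_eq_div_div,
      div_eq_mul_inv (3 / c)]
  rw [h4]
  apply Real.exp_le_exp.2
  have h5 := le_abs_self (Real.log (3 / c))
  have h6 : 0 ≤ |Real.log (3 / c)| := abs_nonneg _
  have h7 : 0 ≤ (n : ℝ) := Nat.cast_nonneg n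
  nlinarith [mul_nonneg h6 hlog, mul_nonneg h7 hlog]

end Pool.Agent.N279.MXG
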