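import Pool.Agent.N795.ST.Stm

/-! A sum of Poisson weights (project ST, task POI). -/

set_option autoImplicit false

namespace Pool.Agent.N795.ST.Poi279

open Filter Topology

/-- the telescoping part -/
noncomputable def a (μ : ℝ) (q : ℕ) : ℝ := 1 / Real.sqrt (max μ q)

lemma a_anti {μ : ℝ} (hμ : 1 ≤ μ) (q : ℕ) : a μ (q + 1) ≤ a μ q := by
  unfold a
  have h1 : 0 < Real.sqrt (max μ q) := Real.sqrt_pos.2 (lt_max_of_lt_left (by linarith))
  refine one_div_le_one_div_of_le h1 (Real.sqrt_le_sqrt (max_le_max le_rfl ?_))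
  push_cast
  linarith

lemma a_lim (μ : ℝ) : Tendsto (a μ) atTop (𝓝 0) := by
  unfold a
  have h1 : Tendsto (fun q : ℕ => max μ (q : ℝ)) atTop atTop :=
    tendsto_atTop_mono (fun q => le_max_right _ _) tendsto_natCast_atTop_atTop
  have h2 := (Real.tendsto_sqrt_atTop.comp h1).inv_tendsto_atTop
  refine h2.congr fun q => ?_
  simp [Function.comp_def]

lemma a_sum {μ : ℝ} (hμ : 1 ≤ μ) :
    HasSum (fun q => a μ q - a μ (q + 1)) (1 / Real.sqrt μ) := by
  rw [hasSum_iff_tendsto_nat_of_nonneg fun q => sub_nonneg.2 (a_anti hμ q)]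
  simp_rw [Finset.sum_range_sub']
  have h0 : a μ 0 = 1 / Real.sqrt μ := by
    unfold a
    rw [Nat.cast_zero, max_eq_left (by linarith)]
  rw [h0]
  have := (a_lim μ).const_sub (1 / Real.sqrt μ)
  simpa using this

/-- the Poisson part -/
noncomputable def b (μ : ℝ) (q : ℕ) : ℝ := μ ^ q * Real.exp (-μ) / ((q + 1).factorial : ℝ)

lemma b_sum {μ : ℝ} (hμ : 1 ≤ μ) : HasSum (b μ) ((Real.exp μ - 1) * (Real.exp (-μ) / μ)) := by
  have h1 : HasSum (fun n : ℕ => μ ^ n / (n.factorial : ℝ)) (Real.exp μ) := by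
    rw [Real.exp_eq_exp_ℝ]
    exact NormedSpace.expSeries_div_hasSum_exp μ
  have h2 := (hasSum_nat_add_iff' (f := fun n : ℕ => μ ^ n / (n.factorial : ℝ)) 1).2 h1
  simp only [Finset.sum_range_one, pow_zero, Nat.factorial_zero, Nat.cast_one, div_one] at h2
  have h3 := h2.mul_right (Real.exp (-μ) / μ)
  have e : ∀ n : ℕ, μ ^ (n + 1) / ((n + 1).factorial : ℝ) * (Real.exp (-μ) / μ) = b μ n := by
    intro n
    have : μ ≠ 0 := by linarith
    unfold b
    field_simp
    ring
  simpa only [e] using h3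

/-- the bound -/
noncomputable def B (μ : ℝ) (q : ℕ) : ℝ := b μ q + (a μ q - a μ (q + 1))

lemma sqrt_le {μ : ℝ} (hμ : 1 ≤ μ) : Real.sqrt μ ≤ μ := by
  rw [Real.sqrt_le_iff]
  exact ⟨by linarith, by nlinarith⟩

lemma B_sum {μ : ℝ} (hμ : 1 ≤ μ) : Summable (B μ) ∧ ∑' q, B μ q ≤ 2 / Real.sqrt μ := by
  have h := (b_sum hμ).add (a_sum hμ)
  refine ⟨h.summable, ?_⟩
  rw [show B μ = fun q => b μ q + (a μ q - a μ (q + 1)) from rfl, h.tsum_eq]
  have hs : 0 < Real.sqrt μ := Real.sqrt_pos.2 (by linarith)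
  have h1 : (Real.exp μ - 1) * (Real.exp (-μ) / μ) ≤ 1 / Real.sqrt μ := by
    have h2 : (Real.exp μ - 1) * (Real.exp (-μ) / μ) = (1 - Real.exp (-μ)) / μ := by
      have h3 : Real.exp μ * Real.exp (-μ) = 1 := by rw [← Real.exp_add, add_neg_cancel, Real.exp_zero]
      have h4 : μ ≠ 0 := by linarith
      field_simp
      linear_combination h3
    rw [h2]
    have h5 := Real.exp_pos (-μ)
    calc (1 - Real.exp (-μ)) / μ ≤ 1 / μ := by
          apply div_le_div_of_nonneg_right <;> linarith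
      _ ≤ 1 / Real.sqrt μ := one_div_le_one_div_of_le hs (sqrt_le hμ)
  have h6 : 2 / Real.sqrt μ = 1 / Real.sqrt μ + 1 / Real.sqrt μ := by ring
  rw [h6]
  linarith

/-- the function `y ^ q exp (-y)` decreases for `y ≥ q` -/
lemma decr {q : ℕ} {m y : ℝ} (hm : 0 < m) (hq : (q : ℝ) ≤ m) (hy : m ≤ y) :
    y ^ q * Real.exp (-y) ≤ m ^ q * Real.exp (-m) := by
  have h1 : y / m ≤ Real.exp ((y - m) / m) := by
    have := Real.add_one_le_exp ((y - m) / m)
    have e : (y - m) / m + 1 = y / m := by field_simp; ring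
    rwa [e] at this
  have h2 : (y / m) ^ q ≤ Real.exp (y - m) := by
    calc (y / m) ^ q ≤ Real.exp ((y - m) / m) ^ q :=
          pow_le_pow_left₀ (div_nonneg (by linarith) hm.le) h1 q
      _ = Real.exp (q * ((y - m) / m)) := by rw [← Real.exp_nat_mul]
      _ ≤ Real.exp (y - m) := by
          apply Real.exp_le_exp.2
          rw [← mul_div_assoc, div_le_iff₀ hm]
          nlinarith
  have h3 : y ^ q = (y / m) ^ q * m ^ q := by rw [← mul_pow, div_mul_cancel₀ _ hm.ne']
  rw [h3]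
  have h4 : Real.exp (y - m) * Real.exp (-y) = Real.exp (-m) := by
    rw [← Real.exp_add]; congr 1; ring
  calc (y / m) ^ q * m ^ q * Real.exp (-y) = (y / m) ^ q * (m ^ q * Real.exp (-y)) := by ring
    _ ≤ Real.exp (y - m) * (m ^ q * Real.exp (-y)) :=
        mul_le_mul_of_nonneg_right h2 (by positivity)
    _ = m ^ q * (Real.exp (y - m) * Real.exp (-y)) := by ring
    _ = m ^ q * Real.exp (-m) := by rw [h4]

/-- the maximum -/
lemma decr' {q : ℕ} (hq : 0 < q) {y : ℝ} (hy : 0 < y) :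
    y ^ q * Real.exp (-y) ≤ (q : ℝ) ^ q * Real.exp (-q) := by
  have hq' : (0 : ℝ) < q := by exact_mod_cast hq
  have h1 : y / q ≤ Real.exp ((y - q) / q) := by
    have := Real.add_one_le_exp ((y - q) / q)
    have e : (y - q) / q + 1 = y / q := by field_simp; ring
    rwa [e] at this
  have h2 : (y / q) ^ q ≤ Real.exp (y - q) := by
    calc (y / q) ^ q ≤ Real.exp ((y - q) / q) ^ q :=
          pow_le_pow_left₀ (div_nonneg hy.le hq'.le) h1 q
      _ = Real.exp (q * ((y - q) / q)) := by rw [← Real.exp_nat_mul]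
      _ = Real.exp (y - q) := by congr 1; field_simp
  have h3 : y ^ q = (y / q) ^ q * (q : ℝ) ^ q := by rw [← mul_pow, div_mul_cancel₀ _ hq'.ne']
  rw [h3]
  have h4 : Real.exp (y - q) * Real.exp (-y) = Real.exp (-(q : ℝ)) := by
    rw [← Real.exp_add]; congr 1; ring
  calc (y / q) ^ q * (q : ℝ) ^ q * Real.exp (-y) = (y / q) ^ q * ((q : ℝ) ^ q * Real.exp (-y)) := by
        ring
    _ ≤ Real.exp (y - q) * ((q : ℝ) ^ q * Real.exp (-y)) :=
        mul_le_mul_of_nonneg_right h2 (by positivity)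
    _ = (q : ℝ) ^ q * (Real.exp (y - q) * Real.exp (-y)) := by ring
    _ = (q : ℝ) ^ q * Real.exp (-q) := by rw [h4]

lemma fact_eq (q : ℕ) : (q.factorial : ℝ) * (q + 1) = ((q + 1).factorial : ℝ) := by
  rw [Nat.factorial_succ]
  push_cast
  ring

lemma stir {q : ℕ} (hq : 0 < q) :
    (q : ℝ) ^ q * Real.exp (-q) / (q.factorial * (q + 1)) ≤
      1 / Real.sqrt q - 1 / Real.sqrt (q + 1 : ℕ) := by
  have hq' : (0 : ℝ) < q := by exact_mod_cast hq
  have h1 := Stirling.le_factorial_stirling q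
  have h2 : ((q : ℝ) / Real.exp 1) ^ q = (q : ℝ) ^ q * Real.exp (-q) := by
    rw [div_pow, ← Real.exp_nat_mul, mul_one, Real.exp_neg, div_eq_mul_inv]
  rw [h2] at h1
  set s := Real.sqrt q with hs
  set r := Real.sqrt ((q + 1 : ℕ) : ℝ) with hr
  have hs0 : 0 < s := Real.sqrt_pos.2 hq'
  have hr0 : 0 < r := Real.sqrt_pos.2 (by positivity)
  have hs2 : s ^ 2 = q := Real.sq_sqrt hq'.le
  have hr2 : r ^ 2 = q + 1 := by
    rw [hr, Real.sq_sqrt (by positivity)]
    push_cast
    ring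
  have h3 : 2 * s ≤ Real.sqrt (2 * Real.pi * q) := by
    apply Real.le_sqrt_of_sq_le
    rw [mul_pow, hs2]
    nlinarith [Real.pi_gt_three]
  set A := (q : ℝ) ^ q * Real.exp (-q) with hA
  have hA0 : 0 < A := by positivity
  have hf : (0 : ℝ) < q.factorial := by exact_mod_cast Nat.factorial_pos q
  have h4 : 2 * s * A ≤ q.factorial := (mul_le_mul_of_nonneg_right h3 hA0.le).trans h1
  have hsr : s ≤ r := Real.sqrt_le_sqrt (by push_cast; linarith)
  have h5 : A / (q.factorial * (q + 1)) ≤ 1 / (2 * s * r ^ 2) := by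
    rw [div_le_div_iff₀ (by positivity) (by positivity), ← hr2]
    have : A * (2 * s * r ^ 2) = (2 * s * A) * r ^ 2 := by ring
    rw [this, one_mul]
    exact mul_le_mul_of_nonneg_right h4 (sq_nonneg r)
  refine h5.trans ?_
  have h6 : 1 / s - 1 / r = 1 / (s * r * (r + s)) := by
    have h7 : (r - s) * (r + s) = 1 := by nlinarith
    field_simp
    linarith
  rw [h6]
  apply one_div_le_one_div_of_le (by positivity)
  nlinarith [mul_pos hs0 hr0]

theorem poi : ∃ C : ℝ, 0 < C ∧ ∀ μ : ℝ, 1 ≤ μ → ∃ B : ℕ → ℝ, Summable B ∧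
    ∑' q, B q ≤ C / Real.sqrt μ ∧
    ∀ (q : ℕ) (y : ℝ), μ ≤ y → y ^ q * Real.exp (-y) / (q.factorial * (q + 1)) ≤ B q := by
  refine ⟨2, two_pos, fun μ hμ => ⟨B μ, (B_sum hμ).1, (B_sum hμ).2, fun q y hy => ?_⟩⟩
  have hf : (0 : ℝ) < q.factorial * (q + 1) := by
    have : (0 : ℝ) < q.factorial := by exact_mod_cast Nat.factorial_pos q
    positivity
  unfold B
  rcases le_or_gt (q : ℝ) μ with hq | hq
  · have h1 := decr (by linarith) hq hy
    have h2 : y ^ q * Real.exp (-y) / (q.factorial * (q + 1)) ≤ b μ q := by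
      unfold b
      rw [← fact_eq]
      exact div_le_div_of_nonneg_right h1 hf.le
    have h3 := a_anti hμ q
    linarith
  · have hq0 : 0 < q := by
      have : (0 : ℝ) < q := by linarith
      exact_mod_cast this
    have h1 := decr' hq0 (by linarith : 0 < y)
    have h2 := (div_le_div_of_nonneg_right h1 hf.le).trans (stir hq0)
    have h3 : a μ q = 1 / Real.sqrt q := by
      unfold a
      rw [max_eq_right hq.le]
    have h4 : a μ (q + 1) = 1 / Real.sqrt ((q + 1 : ℕ) : ℝ) := by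
      unfold a
      rw [max_eq_right (by push_cast; linarith)]
    have h5 : 0 ≤ b μ q := by
      unfold b
      have : 0 ≤ μ := by linarith
      positivity
    rw [h3, h4]
    linarith

end Pool.Agent.N795.ST.Poi279

namespace Pool.Agent.N795.ST

theorem poi_sum : PoiSum := Poi279.poi

end Pool.Agent.N795.ST
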